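import Mathlib

/-! Descent for `Z ^ 2 = (m ^ 2 + 1) y ^ 2 + 2 m`. -/

set_option autoImplicit false

namespace Pool.Agent.V11265.DK

/-- every solution with `y` odd has `y ≡ ± 1` modulo `2 m` -/
theorem desc (m : ℤ) (hm : 1 ≤ m) : ∀ (n : ℕ) (Z y : ℤ), y.natAbs = n → Odd y →
    Z ^ 2 = (m ^ 2 + 1) * y ^ 2 + 2 * m → (2 * m ∣ y - 1 ∨ 2 * m ∣ y + 1) := by
  intro n
  induction n using Nat.strong_induction_on with
  | _ n ih =>
    intro Z y hn hodd h
    -- reduce to `0 < y`, `0 < Z`
    have key : ∀ Z y : ℤ, y.natAbs = n → Odd y → 0 < y → 0 < Z →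
        Z ^ 2 = (m ^ 2 + 1) * y ^ 2 + 2 * m → (2 * m ∣ y - 1 ∨ 2 * m ∣ y + 1) := by
      intro Z y hn hodd hy hZ h
      have hZy : m * y < Z := by
        by_contra hc
        push Not at hc
        have : Z ^ 2 ≤ (m * y) ^ 2 := by
          apply sq_le_sq' <;> nlinarith
        nlinarith [sq_nonneg y]
      rcases lt_or_ge (y ^ 2) (2 * m) with h1 | h1
      · -- `y = 1`
        obtain ⟨j, hj⟩ : ∃ j, Z = m * y + j := ⟨Z - m * y, by ring⟩
        have hj1 : 1 ≤ j := by linarith
        have h2 : y ^ 2 = 2 * m * (j * y - 1) + j ^ 2 := by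
          rw [hj] at h
          nlinarith
        have h3 : j * y < 2 := by
          by_contra hc
          push Not at hc
          nlinarith [sq_nonneg j]
        have h4 : y = 1 := by nlinarith
        left
        rw [h4]
        simp
      · obtain ⟨y', hy'⟩ : ∃ y', y' = (2 * m ^ 2 + 1) * y - 2 * m * Z := ⟨_, rfl⟩
        obtain ⟨Z', hZ'⟩ : ∃ Z', Z' = (2 * m ^ 2 + 1) * Z - 2 * m * (m ^ 2 + 1) * y := ⟨_, rfl⟩
        have h2 : y' < y := by
          rw [hy']
          nlinarith
        have h3 : -y < y' := by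
          rw [hy']
          -- `m Z < (m ^ 2 + 1) y`
          have h4 : m * Z < (m ^ 2 + 1) * y := by
            by_contra hc
            push Not at hc
            have h5 : ((m ^ 2 + 1) * y) ^ 2 ≤ (m * Z) ^ 2 := by
              have : 0 ≤ (m ^ 2 + 1) * y := by positivity
              exact pow_le_pow_left₀ this hc 2
            have h6 : (m * Z) ^ 2 = m ^ 2 * ((m ^ 2 + 1) * y ^ 2 + 2 * m) := by
              rw [mul_pow, h]
            nlinarith [sq_nonneg m]
          nlinarith
        have h4 : y'.natAbs < n := by omega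
        have hodd' : Odd y' := by
          have e : y' = y + 2 * (m ^ 2 * y - m * Z) := by
            rw [hy']
            ring
          rw [e]
          exact hodd.add_even (even_two_mul _)
        have heq : Z' ^ 2 = (m ^ 2 + 1) * y' ^ 2 + 2 * m := by
          rw [hZ', hy']
          linear_combination h
        have e2 : y = y' + 2 * m * (Z - m * y) := by
          rw [hy']
          ring
        rcases ih _ h4 Z' y' rfl hodd' heq with h5 | h5
        · left
          have : y - 1 = (y' - 1) + 2 * m * (Z - m * y) := by linarith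
          rw [this]
          exact dvd_add h5 (dvd_mul_right _ _)
        · right
          have : y + 1 = (y' + 1) + 2 * m * (Z - m * y) := by linarith
          rw [this]
          exact dvd_add h5 (dvd_mul_right _ _)
    have hZ0 : Z ≠ 0 := by
      rintro rfl
      nlinarith [sq_nonneg y]
    have hy0 : y ≠ 0 := by
      rintro rfl
      simp at hodd
    have habs := key |Z| |y| (by rw [Int.natAbs_abs]; exact hn) (by
      rcases abs_choice y with h1 | h1 <;> rw [h1]
      · exact hodd
      · exact hodd.neg) (abs_pos.mpr hy0) (abs_pos.mpr hZ0) (by rw [sq_abs, sq_abs]; exact h)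
    rcases abs_choice y with h1 | h1
    · rw [h1] at habs
      exact habs
    · rw [h1] at habs
      rcases habs with h2 | h2
      · right
        have : y + 1 = -(-y - 1) := by ring
        rw [this]
        exact (dvd_neg).mpr h2
      · left
        have : y - 1 = -(-y + 1) := by ring
        rw [this]
        exact (dvd_neg).mpr h2

/-- the squares of the problem give a square root of `3` modulo `2 k + 1` -/
theorem three_sq (k d : ℤ) (hk : 1 ≤ k) (h1 : IsSquare (d - k ^ 2))
    (h2 : IsSquare (2 * k ^ 2 * d - k ^ 2)) (h3 : IsSquare ((2 * k ^ 2 + 2 * k + 1) * d - k ^ 2)) :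
    ∃ s : ℤ, 2 * k + 1 ∣ s ^ 2 - 3 := by
  obtain ⟨x, hx⟩ := h1
  obtain ⟨w, hw⟩ := h2
  obtain ⟨z, hz⟩ := h3
  have hkw : k ^ 2 ∣ w ^ 2 := ⟨2 * d - 1, by linarith [sq w]⟩
  have hkw' : k ∣ w := (Int.pow_dvd_pow_iff two_ne_zero).mp hkw
  obtain ⟨y, hy⟩ := hkw'
  have hy2 : y ^ 2 = 2 * d - 1 := by
    have : k ^ 2 * y ^ 2 = k ^ 2 * (2 * d - 1) := by
      rw [hy] at hw
      linarith
    exact mul_left_cancel₀ (by positivity) this
  have hodd : Odd y := by
    have : Odd (y ^ 2) := by
      rw [hy2]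
      exact ⟨d - 1, by ring⟩
    exact (Int.odd_pow.mp this).resolve_right (by norm_num)
  have hd : 2 * d = y ^ 2 + 1 := by linarith
  have hpell : (2 * z) ^ 2 = ((2 * k + 1) ^ 2 + 1) * y ^ 2 + 2 * (2 * k + 1) := by
    nlinarith
  have hmod := desc (2 * k + 1) (by linarith) _ _ _ rfl hodd hpell
  have hsq : 2 * k + 1 ∣ y ^ 2 - 1 := by
    have e : y ^ 2 - 1 = (y - 1) * (y + 1) := by ring
    rw [e]
    rcases hmod with h | h
    · exact ((dvd_mul_left _ _).trans h).mul_right _
    · exact ((dvd_mul_left _ _).trans h).mul_left _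
  refine ⟨2 * x, ?_⟩
  have e : (2 * x) ^ 2 - 3 = 2 * (y ^ 2 - 1) + (2 * k + 1) * (1 - 2 * k) := by
    have : x ^ 2 = d - k ^ 2 := by rw [hx]; ring
    rw [mul_pow, this]
    linarith
  rw [e]
  exact dvd_add (hsq.mul_left _) (dvd_mul_right _ _)

lemma two_not_sq : ¬ IsSquare (2 : ZMod 3) := by decide

/-- `3` is not a square modulo a prime `≡ 5, 7` modulo `12` -/
theorem not_sq {p : ℕ} (hp : p.Prime) (h : p % 12 = 5 ∨ p % 12 = 7) {s : ℤ}
    (hs : (p : ℤ) ∣ s ^ 2 - 3) : False := by
  have : Fact p.Prime := ⟨hp⟩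
  have : Fact (Nat.Prime 3) := ⟨Nat.prime_three⟩
  have hsq : IsSquare ((3 : ℕ) : ZMod p) := by
    have h1 : ((s ^ 2 - 3 : ℤ) : ZMod p) = 0 := (ZMod.intCast_zmod_eq_zero_iff_dvd _ p).mpr hs
    push_cast at h1 ⊢
    exact ⟨s, by linear_combination -h1⟩
  rcases h with h | h
  · have h1 := (ZMod.exists_sq_eq_prime_iff_of_mod_four_eq_one (p := p) (q := 3) (by omega)
      (by norm_num)).mp hsq
    have h2 : ((p : ℕ) : ZMod 3) = 2 := by
      have : p % 3 = 2 := by omega
      rw [← Nat.mod_add_div p 3, this]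
      push_cast
      have : (3 : ZMod 3) = 0 := rfl
      rw [this]
      ring
    rw [h2] at h1
    exact two_not_sq h1
  · have h1 := (ZMod.exists_sq_eq_prime_iff_of_mod_four_eq_three (p := p) (q := 3) (by omega)
      (by norm_num) (by omega)).mp hsq
    have h2 : ((p : ℕ) : ZMod 3) = 1 := by
      have : p % 3 = 1 := by omega
      rw [← Nat.mod_add_div p 3, this]
      push_cast
      have : (3 : ZMod 3) = 0 := rfl
      rw [this]
      ring
    rw [h2] at h1
    exact h1 ⟨1, by ring⟩

end Pool.Agent.V11265.DK
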